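import Mathlib

/-!
# A finite form of Schnirelmann's theorem, with two scales

`IsSumOf P K n`: the number `n` is a sum of at most `K` numbers with the property `P`.
-/

set_option autoImplicit false

namespace Pool.Agent.J4H86.SG

open Finset

/-- `n` is a sum of at most `K` numbers with the property `P`. -/
def IsSumOf (P : ℕ → Prop) (K n : ℕ) : Prop :=
  ∃ s : Multiset ℕ, Multiset.card s ≤ K ∧ s.sum = n ∧ ∀ g ∈ s, P g

theorem IsSumOf.zero {P : ℕ → Prop} {K : ℕ} : IsSumOf P K 0 := ⟨0, by simp, by simp, by simp⟩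

theorem IsSumOf.mono {P : ℕ → Prop} {K L n : ℕ} (h : IsSumOf P K n) (hKL : K ≤ L) :
    IsSumOf P L n := by
  obtain ⟨s, h1, h2, h3⟩ := h
  exact ⟨s, h1.trans hKL, h2, h3⟩

theorem IsSumOf.add {P : ℕ → Prop} {K L m n : ℕ} (h : IsSumOf P K m) (h' : IsSumOf P L n) :
    IsSumOf P (K + L) (m + n) := by
  obtain ⟨s, h1, h2, h3⟩ := h
  obtain ⟨t, h4, h5, h6⟩ := h'
  refine ⟨s + t, ?_, ?_, ?_⟩
  · rw [Multiset.card_add]; omega
  · rw [Multiset.sum_add, h2, h5]
  · intro g hg
    rcases Multiset.mem_add.1 hg with hg | hg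
    · exact h3 g hg
    · exact h6 g hg

theorem IsSumOf.one {P : ℕ → Prop} {n : ℕ} (h : P n) : IsSumOf P 1 n :=
  ⟨{n}, by simp, by simp, by simpa using h⟩

theorem IsSumOf.rep {P : ℕ → Prop} {K n : ℕ} (h : IsSumOf P K n) (m : ℕ) :
    IsSumOf P (m * K) (m * n) := by
  induction m with
  | zero => simpa using (IsSumOf.zero (P := P) (K := 0))
  | succ m ih =>
    have := ih.add h
    have e1 : (m + 1) * K = m * K + K := by ring
    have e2 : (m + 1) * n = m * n + n := by ring
    rw [e1, e2]
    exact this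

/-- sums of sums -/
theorem IsSumOf.comp {P Q : ℕ → Prop} {K L : ℕ} {b : ℕ} (hPQ : ∀ g, P g → IsSumOf Q L (b * g))
    {n : ℕ} (h : IsSumOf P K n) : IsSumOf Q (K * L) (b * n) := by
  obtain ⟨s, h1, h2, h3⟩ := h
  subst h2
  have key : ∀ s : Multiset ℕ, (∀ g ∈ s, P g) → IsSumOf Q (Multiset.card s * L) (b * s.sum) := by
    intro s
    induction s using Multiset.induction_on with
    | empty => intro _; simpa using (IsSumOf.zero (P := Q) (K := 0))
    | cons a s ih =>
      intro h
      have h4 := ih (fun g hg => h g (Multiset.mem_cons_of_mem hg))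
      have h5 := hPQ a (h a (Multiset.mem_cons_self a s))
      have := h5.add h4
      have e1 : Multiset.card (a ::ₘ s) * L = L + Multiset.card s * L := by
        rw [Multiset.card_cons]; ring
      have e2 : b * (a ::ₘ s).sum = b * a + b * s.sum := by
        rw [Multiset.sum_cons]; ring
      rw [e1, e2]
      exact this
  exact (key s h3).mono (Nat.mul_le_mul_right _ h1)

open Classical in
/-- the number of elements of `A` in `[1, Y]` -/
noncomputable def cnt (A : ℕ → Prop) (Y : ℕ) : ℕ := ((Icc 1 Y).filter A).card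

theorem cnt_mono {A : ℕ → Prop} {Y Z : ℕ} (h : Y ≤ Z) : cnt A Y ≤ cnt A Z := by
  classical
  apply card_le_card
  intro x hx
  rw [mem_filter, mem_Icc] at hx ⊢
  exact ⟨⟨hx.1.1, hx.1.2.trans h⟩, hx.2⟩

theorem cnt_le {A B : ℕ → Prop} {Y : ℕ} (h : ∀ x, 1 ≤ x → x ≤ Y → A x → B x) :
    cnt A Y ≤ cnt B Y := by
  classical
  apply card_le_card
  intro x hx
  rw [mem_filter, mem_Icc] at hx ⊢
  exact ⟨hx.1, h x hx.1.1 hx.1.2 hx.2⟩

/-- the elements from `a` on -/
theorem cnt_split {A : ℕ → Prop} {a Y : ℕ} (ha : 1 ≤ a) (haY : a ≤ Y) (S : Finset ℕ)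
    (hS : ∀ x ∈ S, a ≤ x ∧ x ≤ Y ∧ A x) : cnt A (a - 1) + S.card ≤ cnt A Y := by
  classical
  rw [cnt, cnt, ← card_union_of_disjoint]
  · apply card_le_card
    intro x hx
    rw [mem_union, mem_filter, mem_Icc] at hx
    rw [mem_filter, mem_Icc]
    rcases hx with hx | hx
    · exact ⟨⟨hx.1.1, by omega⟩, hx.2⟩
    · obtain ⟨h1, h2, h3⟩ := hS x hx
      exact ⟨⟨by omega, h2⟩, h3⟩
  · rw [disjoint_left]
    intro x hx hx'
    rw [mem_filter, mem_Icc] at hx
    have := (hS x hx').1
    omega

theorem schnir_step {A B C : ℕ → Prop} (h1 : A 1) (hB0 : B 0)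
    (hA : ∀ a, A a → ∀ b, B b → C (a + b)) {β : ℝ} {M : ℕ}
    (hB : ∀ Y ≤ M, β * Y ≤ cnt B Y) : ∀ Y ≤ M, (1 - β) * cnt A Y + β * Y ≤ cnt C Y := by
  classical
  intro Y
  induction Y using Nat.strong_induction_on with
  | _ Y ih =>
    intro hYM
    rcases Nat.eq_zero_or_pos Y with h0 | h0
    · subst h0
      simp [cnt]
    -- the largest element of `A` up to `Y`
    have hne : ((Icc 1 Y).filter A).Nonempty := ⟨1, by simp; exact ⟨h0, h1⟩⟩
    set a : ℕ := ((Icc 1 Y).filter A).max' hne with ha
    have haM := max'_mem _ hne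
    rw [← ha, mem_filter, mem_Icc] at haM
    obtain ⟨⟨ha1, haY⟩, haA⟩ := haM
    -- `A`
    have hcA : cnt A Y = cnt A (a - 1) + 1 := by
      apply le_antisymm
      · have hsub : (Icc 1 Y).filter A ⊆ ((Icc 1 (a - 1)).filter A) ∪ {a} := by
          intro x hx
          have hxa : x ≤ a := le_max' _ _ hx
          rw [mem_filter, mem_Icc] at hx
          rw [mem_union, mem_filter, mem_Icc, mem_singleton]
          rcases Nat.lt_or_ge x a with h | h
          · left
            exact ⟨⟨hx.1.1, by omega⟩, hx.2⟩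
          · right
            omega
        calc cnt A Y ≤ (((Icc 1 (a - 1)).filter A) ∪ {a}).card := card_le_card hsub
          _ ≤ cnt A (a - 1) + 1 := by
            refine (card_union_le _ _).trans ?_
            rw [card_singleton, cnt]
      · have := cnt_split (A := A) ha1 haY {a} (by
          intro x hx
          rw [mem_singleton] at hx
          subst hx
          exact ⟨le_rfl, haY, haA⟩)
        simpa using this
    -- `C`
    have hcC : cnt C (a - 1) + (cnt B (Y - a) + 1) ≤ cnt C Y := by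
      set S : Finset ℕ := (insert 0 ((Icc 1 (Y - a)).filter B)).image fun b => a + b with hS
      have hScard : S.card = cnt B (Y - a) + 1 := by
        rw [hS, card_image_of_injective _ (add_right_injective a), card_insert_of_notMem]
        · rw [cnt]
        · simp
      have := cnt_split (A := C) ha1 haY S (by
        intro x hx
        rw [hS, mem_image] at hx
        obtain ⟨b, hb, rfl⟩ := hx
        rw [mem_insert, mem_filter, mem_Icc] at hb
        rcases hb with rfl | hb
        · exact ⟨by omega, by omega, hA a haA 0 hB0⟩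
        · exact ⟨by omega, by omega, hA a haA b hb.2⟩)
      omega
    have h2 := ih (a - 1) (by omega) (by omega)
    have h3 := hB (Y - a) (by omega)
    have hcA' : (cnt A Y : ℝ) = cnt A (a - 1) + 1 := by exact_mod_cast hcA
    have hcC' : (cnt C (a - 1) : ℝ) + (cnt B (Y - a) + 1) ≤ cnt C Y := by exact_mod_cast hcC
    have e1 : ((a - 1 : ℕ) : ℝ) = (a : ℝ) - 1 := by
      rw [Nat.cast_sub ha1]; simp
    have e2 : ((Y - a : ℕ) : ℝ) = (Y : ℝ) - a := by rw [Nat.cast_sub haY]
    rw [e1] at h2
    rw [e2] at h3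
    rw [hcA']
    nlinarith

/-- Schnirelmann's theorem in a finite interval. -/
theorem schnirelmann {δ : ℝ} (hδ : 0 < δ) : ∃ K : ℕ, ∀ (M : ℕ) (A : ℕ → Prop), A 1 →
    (∀ Y, 1 ≤ Y → Y ≤ M → δ * Y ≤ cnt A Y) → ∀ n ≤ M, IsSumOf A K n := by
  classical
  rcases le_or_gt 1 δ with hδ1 | hδ1
  · -- every number belongs to `A`
    refine ⟨1, fun M A h1 hA n hn => ?_⟩
    rcases Nat.eq_zero_or_pos n with rfl | h0
    · exact IsSumOf.zero
    apply IsSumOf.one
    by_contra hcon
    have h2 := hA n h0 hn
    have h3 : cnt A n ≤ n - 1 := by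
      have hsub : (Icc 1 n).filter A ⊆ Icc 1 (n - 1) := by
        intro x hx
        rw [mem_filter, mem_Icc] at hx
        rw [mem_Icc]
        refine ⟨hx.1.1, ?_⟩
        have : x ≠ n := by
          rintro rfl
          exact hcon hx.2
        omega
      calc cnt A n ≤ (Icc 1 (n - 1)).card := card_le_card hsub
        _ = n - 1 := by simp
    have h4 : (cnt A n : ℝ) ≤ (n : ℝ) - 1 := by
      have : ((n - 1 : ℕ) : ℝ) = (n : ℝ) - 1 := by rw [Nat.cast_sub h0]; simp
      rw [← this]
      exact_mod_cast h3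
    have h5 : (0 : ℝ) ≤ n := Nat.cast_nonneg n
    nlinarith
  obtain ⟨k, hk⟩ := exists_pow_lt_of_lt_one (by norm_num : (0 : ℝ) < 1 / 2)
    (by linarith : 1 - δ < 1)
  refine ⟨2 * k, fun M A h1 hA n hn => ?_⟩
  -- the density after `j` steps
  have key : ∀ j : ℕ, ∀ Y ≤ M, (1 - (1 - δ) ^ j) * (Y : ℝ) ≤ cnt (IsSumOf A j) Y := by
    intro j
    induction j with
    | zero =>
      intro Y _
      simp
    | succ j ih =>
      intro Y hY
      have hb0 : (0 : ℝ) ≤ (1 - δ) ^ j := pow_nonneg (by linarith) j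
      have h3 := schnir_step (A := A) (B := IsSumOf A j) (C := IsSumOf A (j + 1))
        (β := 1 - (1 - δ) ^ j) h1 IsSumOf.zero
        (fun a ha b hb => by
          have := (IsSumOf.one ha).add hb
          rwa [add_comm 1 j] at this) ih Y hY
      have h4 : δ * Y ≤ cnt A Y := by
        rcases Nat.eq_zero_or_pos Y with h0 | h0
        · subst h0; simp
        · exact hA Y h0 hY
      have h5 : (1 - (1 - (1 - δ) ^ j)) * (δ * Y) ≤ (1 - (1 - (1 - δ) ^ j)) * cnt A Y := by
        apply mul_le_mul_of_nonneg_left h4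
        linarith
      calc (1 - (1 - δ) ^ (j + 1)) * (Y : ℝ)
          = (1 - (1 - (1 - δ) ^ j)) * (δ * Y) + (1 - (1 - δ) ^ j) * Y := by ring
        _ ≤ (1 - (1 - (1 - δ) ^ j)) * cnt A Y + (1 - (1 - δ) ^ j) * Y := by linarith
        _ ≤ _ := h3
  rcases Nat.eq_zero_or_pos n with rfl | h0
  · exact IsSumOf.zero
  have h2 : (n : ℝ) / 2 < cnt (IsSumOf A k) n := by
    have h3 := key k n hn
    have h4 : (0 : ℝ) < n := by exact_mod_cast h0
    nlinarith
  set S : Finset ℕ := insert 0 ((Icc 1 n).filter (IsSumOf A k)) with hS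
  have hScard : S.card = cnt (IsSumOf A k) n + 1 := by
    rw [hS, card_insert_of_notMem]
    · rw [cnt]
    · simp
  have hSle : ∀ x ∈ S, x ≤ n ∧ IsSumOf A k x := by
    intro x hx
    rw [hS, mem_insert, mem_filter, mem_Icc] at hx
    rcases hx with rfl | hx
    · exact ⟨Nat.zero_le _, IsSumOf.zero⟩
    · exact ⟨hx.1.2, hx.2⟩
  have hnd : ¬ Disjoint S (S.image fun x => n - x) := by
    intro hd
    have h3 : (S ∪ S.image fun x => n - x).card ≤ n + 1 := by
      calc (S ∪ S.image fun x => n - x).card ≤ (range (n + 1)).card := by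
            apply card_le_card
            intro x hx
            rw [mem_range]
            rcases mem_union.1 hx with hx | hx
            · have := (hSle x hx).1
              omega
            · obtain ⟨y, _, rfl⟩ := mem_image.1 hx
              omega
        _ = n + 1 := card_range _
    rw [card_union_of_disjoint hd, card_image_of_injOn (by
      intro x hx y hy hxy
      have hx' := (hSle x hx).1
      have hy' := (hSle y hy).1
      have : n - x = n - y := hxy
      omega), hScard] at h3
    have h4 : ((cnt (IsSumOf A k) n + 1 + (cnt (IsSumOf A k) n + 1) : ℕ) : ℝ) ≤ ((n + 1 : ℕ) : ℝ) := by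
      exact_mod_cast h3
    push_cast at h4
    linarith
  rw [not_disjoint_iff] at hnd
  obtain ⟨x, hx, hx'⟩ := hnd
  obtain ⟨y, hy, hyx⟩ := mem_image.1 hx'
  have h3 := hSle x hx
  have h4 := hSle y hy
  have h5 := h3.2.add h4.2
  have hyx' : n - y = x := hyx
  have e : x + y = n := by omega
  rw [e] at h5
  exact h5.mono (by omega)

/-- Two scales: a set of positive density at all scales `Y ≥ C` (up to `M`). -/
theorem two_scales {δ : ℝ} (hδ : 0 < δ) {C : ℕ} (hC : 1 ≤ C) : ∃ K : ℕ, ∀ (M : ℕ) (B : ℕ → Prop),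
    (∀ Y, C ≤ Y → Y ≤ M → δ * Y ≤ cnt B Y) → ∀ m, C.factorial * m ≤ M →
      IsSumOf B K (C.factorial * m) := by
  classical
  have hC0 : (0 : ℝ) < C := by exact_mod_cast hC
  set δ' : ℝ := min δ 1 / C with hδ'
  have hδ'0 : 0 < δ' := div_pos (lt_min hδ one_pos) hC0
  obtain ⟨K, hK⟩ := schnirelmann hδ'0
  refine ⟨K * C, fun M B hB m hm => ?_⟩
  rcases Nat.eq_zero_or_pos m with rfl | hm0
  · simpa using (IsSumOf.zero (P := B) (K := K * C))
  have hfac : C ≤ C.factorial := Nat.self_le_factorial C
  have hCM : C ≤ M := by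
    calc C ≤ C.factorial := hfac
      _ ≤ C.factorial * m := Nat.le_mul_of_pos_right _ hm0
      _ ≤ M := hm
  -- an element of `B` up to `C`
  obtain ⟨b, hb1, hbC, hbB⟩ : ∃ b, 1 ≤ b ∧ b ≤ C ∧ B b := by
    have h1 := hB C le_rfl hCM
    have h2 : (0 : ℝ) < cnt B C := lt_of_lt_of_le (by positivity) h1
    have h3 : 0 < ((Icc 1 C).filter B).card := by exact_mod_cast h2
    obtain ⟨b, hb⟩ := card_pos.1 h3
    rw [mem_filter, mem_Icc] at hb
    exact ⟨b, hb.1.1, hb.1.2, hb.2⟩
  have hb0 : (0 : ℝ) < b := by exact_mod_cast hb1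
  have hbCr : (b : ℝ) ≤ C := by exact_mod_cast hbC
  set D : ℕ → Prop := fun n => IsSumOf B C (b * n) with hD
  have hD1 : D 1 := by
    show IsSumOf B C (b * 1)
    rw [mul_one]
    exact (IsSumOf.one hbB).mono hC
  have hdens : ∀ Y, 1 ≤ Y → Y ≤ M → δ' * Y ≤ cnt D Y := by
    intro Y hY1 hYM
    rcases Nat.lt_or_ge Y C with hYC | hYC
    · -- small `Y`
      have h1 : 1 ≤ cnt D Y := by
        rw [cnt]
        apply card_pos.2
        exact ⟨1, by rw [mem_filter, mem_Icc]; exact ⟨⟨le_rfl, hY1⟩, hD1⟩⟩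
      have h2 : (1 : ℝ) ≤ cnt D Y := by exact_mod_cast h1
      refine le_trans ?_ h2
      have h3 : (Y : ℝ) ≤ C := by exact_mod_cast hYC.le
      have h4 : δ' ≤ 1 / C := by
        rw [hδ']
        exact div_le_div_of_nonneg_right (min_le_right _ _) hC0.le
      calc δ' * Y ≤ 1 / C * C := by gcongr
        _ = 1 := by field_simp
    · -- large `Y`
      have h1 := hB Y hYC hYM
      -- a residue class modulo `b`
      obtain ⟨r, hr⟩ : ∃ r ∈ range b,
          δ * Y / b ≤ ((((Icc 1 Y).filter B).filter fun x => x % b = r).card : ℝ) := by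
        by_contra hcon
        push Not at hcon
        have h2 : cnt B Y = ∑ r ∈ range b, (((Icc 1 Y).filter B).filter fun x => x % b = r).card := by
          rw [cnt]
          exact card_eq_sum_card_fiberwise (by
            intro x _
            exact mem_range.2 (Nat.mod_lt _ hb1))
        have h3 : (cnt B Y : ℝ) < ∑ _r ∈ range b, δ * Y / b := by
          rw [h2]
          push_cast
          exact sum_lt_sum_of_nonempty ⟨0, mem_range.2 hb1⟩ hcon
        rw [sum_const, card_range, nsmul_eq_mul, mul_div_cancel₀ _ hb0.ne'] at h3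
        linarith
      obtain ⟨_, hr⟩ := hr
      set F : Finset ℕ := ((Icc 1 Y).filter B).filter fun x => x % b = r with hF
      have hFmem : ∀ x ∈ F, 1 ≤ x ∧ x ≤ Y ∧ B x ∧ x % b = r := by
        intro x hx
        rw [hF, mem_filter, mem_filter, mem_Icc] at hx
        exact ⟨hx.1.1.1, hx.1.1.2, hx.1.2, hx.2⟩
      have hYpos : (0 : ℝ) < Y := by exact_mod_cast hY1
      have hFne : F.Nonempty := by
        rw [← card_pos]
        have : (0 : ℝ) < F.card := lt_of_lt_of_le (by positivity) hr
        exact_mod_cast this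
      obtain ⟨x0, hx0⟩ := hFne
      have hx0' := hFmem x0 hx0
      have hdvd : ∀ x ∈ F, b ∣ x + (b - 1) * x0 := by
        intro x hx
        have h2 := (hFmem x hx).2.2.2
        have h3 := hx0'.2.2.2
        have h4 : x ≡ x0 [MOD b] := by rw [Nat.ModEq, h2, h3]
        have h5 : x + (b - 1) * x0 ≡ x0 + (b - 1) * x0 [MOD b] := h4.add_right _
        have h6 : x0 + (b - 1) * x0 = b * x0 := by
          obtain ⟨e, rfl⟩ := Nat.exists_eq_add_of_le hb1
          have : 1 + e - 1 = e := by omega
          rw [this]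
          ring
        rw [h6] at h5
        exact (Nat.modEq_zero_iff_dvd.1 (h5.trans (Nat.modEq_zero_iff_dvd.2 (dvd_mul_right b x0))))
      have hcard : F.card ≤ cnt D Y := by
        rw [cnt]
        apply card_le_card_of_injOn (fun x => (x + (b - 1) * x0) / b)
        · intro x hx
          have hx' := hFmem x hx
          obtain ⟨e, he⟩ := hdvd x hx
          have hval : (x + (b - 1) * x0) / b = e := by
            rw [he]
            exact Nat.mul_div_cancel_left e hb1
          show (x + (b - 1) * x0) / b ∈ _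
          rw [hval]
          rw [Finset.mem_coe, mem_filter, mem_Icc]
          refine ⟨⟨?_, ?_⟩, ?_⟩
          · by_contra h0
            have : e = 0 := by omega
            subst this
            omega
          · have h2 : b * e ≤ b * Y := by
              rw [← he]
              calc x + (b - 1) * x0 ≤ Y + (b - 1) * Y := by
                    apply add_le_add hx'.2.1
                    exact Nat.mul_le_mul_left _ hx0'.2.1
                _ = b * Y := by
                    obtain ⟨e, rfl⟩ := Nat.exists_eq_add_of_le hb1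
                    have : 1 + e - 1 = e := by omega
                    rw [this]
                    ring
            exact Nat.le_of_mul_le_mul_left h2 hb1
          · show IsSumOf B C (b * e)
            rw [← he]
            have h2 : IsSumOf B (1 + (b - 1) * 1) (x + (b - 1) * x0) :=
              (IsSumOf.one hx'.2.2.1).add ((IsSumOf.one hx0'.2.2.1).rep (b - 1))
            exact h2.mono (by omega)
        · intro x hx y hy hxy
          obtain ⟨e, he⟩ := hdvd x hx
          obtain ⟨e', he'⟩ := hdvd y hy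
          have h2 : (x + (b - 1) * x0) / b = (y + (b - 1) * x0) / b := hxy
          rw [he, he', Nat.mul_div_cancel_left _ hb1, Nat.mul_div_cancel_left _ hb1] at h2
          subst h2
          omega
      have hcard' : (F.card : ℝ) ≤ cnt D Y := by exact_mod_cast hcard
      refine le_trans ?_ (hr.trans hcard')
      have h2 : δ' ≤ δ / C := by
        rw [hδ']
        exact div_le_div_of_nonneg_right (min_le_left _ _) hC0.le
      calc δ' * Y ≤ δ / C * Y := by gcongr
        _ ≤ δ / b * Y := by gcongr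
        _ = δ * Y / b := by ring
  -- the conclusion
  have hbdvd : b ∣ C.factorial := Nat.dvd_factorial hb1 hbC
  obtain ⟨e, he⟩ := hbdvd
  have h1 : e * m ≤ M := by
    refine le_trans ?_ hm
    rw [he]
    have : e * m ≤ b * (e * m) := Nat.le_mul_of_pos_left _ hb1
    calc e * m ≤ b * (e * m) := this
      _ = b * e * m := by ring
  have h2 := hK M D hD1 hdens (e * m) h1
  have h3 := IsSumOf.comp (Q := B) (L := C) (b := b) (fun g hg => hg) h2
  have e2 : C.factorial * m = b * (e * m) := by rw [he]; ring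
  rw [e2]
  exact h3

/-- From a property of multiples: if for at least half of the `k ≤ H` one of the numbers
`b e k`, `1 ≤ e ≤ T`, has the property `G`, then the multiples of `q` are sums of a bounded number
of numbers with the property `G`. -/
theorem of_multiples {T b C : ℕ} (hT : 1 ≤ T) (hb : 1 ≤ b) (hC : 1 ≤ C) :
    ∃ q K : ℕ, b ∣ q ∧ 0 < q ∧ ∀ (F : ℝ) (G : ℕ → Prop),
      (∀ H : ℕ, C ≤ H → ((C * (b * H) : ℕ) : ℝ) ≤ F →
        (H : ℝ) / 2 ≤ cnt (fun k => ∃ e, 1 ≤ e ∧ e ≤ T ∧ G (b * (e * k))) H) →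
      ∀ m : ℕ, ((q * m : ℕ) : ℝ) ≤ F / C → IsSumOf (fun g => 0 < g ∧ G g) K (q * m) := by
  classical
  have hT0 : (0 : ℝ) < T := by exact_mod_cast hT
  have hC1 : 1 ≤ T * C := Nat.mul_pos hT hC
  obtain ⟨K, hK⟩ := two_scales (δ := 1 / (4 * T ^ 2)) (by positivity) hC1
  refine ⟨b * (T * C).factorial, K, dvd_mul_right _ _,
    Nat.mul_pos hb (Nat.factorial_pos _), fun F G hG m hm => ?_⟩
  set B : ℕ → Prop := fun t => 0 < t ∧ G (b * t) with hB
  have hb0 : (0 : ℝ) < b := by exact_mod_cast hb
  have hC0 : (0 : ℝ) < C := by exact_mod_cast hC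
  have h1 := hK ((T * C).factorial * m) B (by
    intro Y hY1 hY2
    set H : ℕ := Y / T with hH
    have hHC : C ≤ H := by
      rw [hH, Nat.le_div_iff_mul_le hT]
      calc C * T = T * C := mul_comm _ _
        _ ≤ Y := hY1
    have hHY : T * H ≤ Y := Nat.mul_div_le Y T
    have hHF : ((C * (b * H) : ℕ) : ℝ) ≤ F := by
      have h2 : H ≤ (T * C).factorial * m := by
        calc H ≤ T * H := Nat.le_mul_of_pos_left _ hT
          _ ≤ Y := hHY
          _ ≤ _ := hY2
      have h3 : ((C * (b * H) : ℕ) : ℝ) ≤ C * ((b * (T * C).factorial * m : ℕ) : ℝ) := by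
        have : C * (b * H) ≤ C * (b * (T * C).factorial * m) := by
          apply Nat.mul_le_mul_left
          rw [mul_assoc]
          exact Nat.mul_le_mul_left _ h2
        exact_mod_cast this
      refine h3.trans ?_
      calc (C : ℝ) * ((b * (T * C).factorial * m : ℕ) : ℝ) ≤ C * (F / C) := by gcongr
        _ = F := by field_simp
    have h2 := hG H hHC hHF
    -- count the elements `e k`
    set U : Finset ℕ := (Icc 1 H).filter (fun k => ∃ e, 1 ≤ e ∧ e ≤ T ∧ G (b * (e * k))) with hU
    have hUcard : U.card ≤ cnt B Y * T := by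
      rw [cnt]
      have hsub : U ⊆ (((Icc 1 Y).filter B) ×ˢ (Icc 1 T)).image fun p => p.1 / p.2 := by
        intro k hk
        rw [hU, mem_filter, mem_Icc] at hk
        obtain ⟨⟨hk1, hk2⟩, e, he1, he2, hGe⟩ := hk
        rw [mem_image]
        refine ⟨(e * k, e), ?_, ?_⟩
        · rw [mem_product, mem_filter, mem_Icc, mem_Icc]
          have hpos : 0 < e * k := Nat.mul_pos he1 hk1
          refine ⟨⟨⟨hpos, ?_⟩, hpos, hGe⟩, he1, he2⟩
          calc e * k ≤ T * H := Nat.mul_le_mul he2 hk2
            _ ≤ Y := hHY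
        · exact Nat.mul_div_cancel_left k he1
      have hc : U.card ≤ ((Icc 1 Y).filter B).card * T := by
        refine (card_le_card hsub).trans (card_image_le.trans (le_of_eq ?_))
        rw [card_product, Nat.card_Icc, Nat.add_sub_cancel]
      refine hc.trans (le_of_eq ?_)
      congr!
    have h3 : (H : ℝ) / 2 ≤ cnt B Y * T := by
      refine h2.trans ?_
      have h4 : cnt (fun k => ∃ e, 1 ≤ e ∧ e ≤ T ∧ G (b * (e * k))) H = U.card := by
        rw [cnt, hU]
      rw [h4]
      exact_mod_cast hUcard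
    have h4 : (Y : ℝ) ≤ 2 * (T * H) := by
      have h5 : Y < T * H + T := by
        have := Nat.lt_mul_div_succ Y hT
        calc Y < T * (Y / T + 1) := this
          _ = T * H + T := by rw [hH]; ring
      have h6 : T ≤ T * H := Nat.le_mul_of_pos_right _ (by omega)
      have h7 : Y ≤ 2 * (T * H) := by omega
      exact_mod_cast h7
    have h5 : (1 : ℝ) / (4 * T ^ 2) * Y ≤ (1 : ℝ) / (4 * T ^ 2) * (2 * (T * H)) := by gcongr
    refine h5.trans ?_
    have h6 : (1 : ℝ) / (4 * T ^ 2) * (2 * (T * H)) = (H / 2) / T := by field_simp; ring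
    rw [h6, div_le_iff₀ hT0]
    exact h3) m le_rfl
  obtain ⟨s, hs1, hs2, hs3⟩ := h1
  refine ⟨s.map fun t => b * t, ?_, ?_, ?_⟩
  · rw [Multiset.card_map]; exact hs1
  · rw [Multiset.sum_map_mul_left, Multiset.map_id', hs2]; ring
  · intro g hg
    obtain ⟨t, ht, rfl⟩ := Multiset.mem_map.1 hg
    obtain ⟨ht1, ht2⟩ := hs3 t ht
    exact ⟨Nat.mul_pos hb ht1, ht2⟩

end Pool.Agent.J4H86.SG
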